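import Pool.Agent.helper78.EQ.Spec
import Pool.Agent.helper85.LD.G1
import Pool.Agent.helper44.DM.ZG
import Pool.Agent.helper13.LD.E2

set_option autoImplicit false

open Complex MeasureTheory Set Metric Filter

namespace Pool.Agent.EQ

open Pool.Agent.helper6.LD

theorem helper13_TC_bc {f : ℂ → ℂ} {c z : ℂ} {R r M C₁ : ℝ} (hM : 0 < M) (hr : 0 ≤ r)
    (hrR : r < R) (hf : DifferentiableOn ℂ f (ball c R)) (hre : ∀ w ∈ ball c R, (f w).re ≤ M)
    (hc : ‖f c‖ ≤ C₁) (hz : ‖z - c‖ ≤ r) :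
    ‖f z‖ ≤ 2 * M * r / (R - r) + C₁ * (R + r) / (R - r) := by
  have hR : 0 < R := lt_of_le_of_lt hr hrR
  have hmaps : ∀ w ∈ ball (0 : ℂ) R, c + w ∈ ball c R := by
    intro w hw
    rw [mem_ball_zero_iff] at hw
    rw [mem_ball, dist_eq_norm, add_sub_cancel_left]
    exact hw
  have hd : DifferentiableOn ℂ (fun w => f (c + w)) (ball 0 R) := by
    intro w hw
    have h1 : DifferentiableAt ℂ f (c + w) :=
      (hf (c + w) (hmaps w hw)).differentiableAt (isOpen_ball.mem_nhds (hmaps w hw))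
    have h2 : DifferentiableAt ℂ (fun w : ℂ => c + w) w := by fun_prop
    exact (h1.comp w h2).differentiableWithinAt
  have hw : z - c ∈ ball (0 : ℂ) R := by
    rw [mem_ball_zero_iff]; linarith
  have h1 := Complex.borelCaratheodory (f := fun w => f (c + w)) hM hd
    (fun w hw => hre _ (hmaps w hw)) hR hw
  simp only [add_zero, add_sub_cancel] at h1
  have h3 : 0 < R - r := by linarith
  have h4 : 0 < R - ‖z - c‖ := by linarith
  have hC₁ : 0 ≤ C₁ := (norm_nonneg _).trans hc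
  refine h1.trans (add_le_add ?_ ?_)
  · rw [div_le_div_iff₀ h4 h3]
    have h5 : 0 ≤ ‖z - c‖ := norm_nonneg _
    have h6 : ‖z - c‖ * (R - r) ≤ r * (R - ‖z - c‖) := by nlinarith
    nlinarith
  · rw [div_le_div_iff₀ h4 h3]
    have h5 : 0 ≤ ‖z - c‖ := norm_nonneg _
    have h6 : (R + ‖z - c‖) * (R - r) ≤ (R + r) * (R - ‖z - c‖) := by nlinarith
    have h7 : ‖f c‖ * ((R + ‖z - c‖) * (R - r)) ≤ C₁ * ((R + r) * (R - ‖z - c‖)) :=
      mul_le_mul hc h6 (by positivity) hC₁
    linarith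

theorem helper13_TC_log {c : ℂ} {C : ℝ} (h1 : Real.exp (-C) ≤ ‖riemannZeta c‖)
    (h2 : ‖riemannZeta c‖ ≤ Real.exp C) :
    ‖Complex.log (riemannZeta c)‖ ≤ C + Real.pi := by
  have h0 : 0 < ‖riemannZeta c‖ := lt_of_lt_of_le (Real.exp_pos _) h1
  have h3 : Real.log ‖riemannZeta c‖ ≤ C := (Real.log_le_iff_le_exp h0).2 h2
  have h4 : -C ≤ Real.log ‖riemannZeta c‖ := (Real.le_log_iff_exp_le h0).2 h1
  have h5 : |Complex.arg (riemannZeta c)| ≤ Real.pi := Complex.abs_arg_le_pi _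
  have h6 := Complex.norm_le_abs_re_add_abs_im (Complex.log (riemannZeta c))
  rw [Complex.log_re, Complex.log_im] at h6
  have h7 : |Real.log ‖riemannZeta c‖| ≤ C := abs_le.2 ⟨h4, h3⟩
  linarith

/-- the exponent -/
theorem helper13_TC_kappa {δ r₂ r₃ : ℝ} (hδ : 0 < δ) (hδ1 : δ ≤ 1 / 4) (h2 : 1 / 2 ≤ r₂)
    (h3 : r₃ = r₂ + δ / 4) (h3' : r₃ ≤ 3) :
    Real.log (r₂ / (1 / 2)) / Real.log (r₃ / (1 / 2)) ≤ 1 - δ / 26 := by
  have hr3 : 1 / 2 < r₃ := by linarith
  have hpos : 0 < Real.log (r₃ / (1 / 2)) := Real.log_pos (by rw [lt_div_iff₀ (by norm_num)]; linarith)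
  rw [div_le_iff₀ hpos]
  have h4 : Real.log (r₃ / (1 / 2)) ≤ 2 := by
    rw [Real.log_le_iff_le_exp (by positivity)]
    have h5 : (2 : ℝ).exp = Real.exp 1 * Real.exp 1 := by rw [← Real.exp_add]; norm_num
    have h6 := Real.exp_one_gt_d9
    rw [h5]
    have : r₃ / (1 / 2) ≤ 6 := by rw [div_le_iff₀ (by norm_num)]; linarith
    nlinarith
  have h5 : δ / 13 ≤ Real.log (r₃ / (1 / 2)) - Real.log (r₂ / (1 / 2)) := by
    rw [← Real.log_div (by positivity) (by positivity)]
    have h6 : r₃ / (1 / 2) / (r₂ / (1 / 2)) = r₃ / r₂ := by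
      field_simp
    rw [h6]
    have h7 := Real.one_sub_inv_le_log_of_pos (x := r₃ / r₂) (by positivity)
    have h8 : 1 - (r₃ / r₂)⁻¹ = (δ / 4) / r₃ := by
      rw [inv_div, h3]
      have : r₂ + δ / 4 ≠ 0 := by positivity
      field_simp
      ring
    have h9 : δ / 13 ≤ (δ / 4) / r₃ := by
      rw [le_div_iff₀ (by linarith)]
      nlinarith
    linarith
  nlinarith

theorem helper13_TC_ev {κ ε' M₁ C₃ : ℝ} (hκ : 0 < κ) (hε : 0 < ε') (hM : 0 < M₁)
    (hC : 0 < C₃) : ∀ᶠ t : ℝ in atTop,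
    M₁ ^ κ * (C₃ * Real.log t) ^ (1 - κ) ≤ ε' * Real.log t := by
  have h1 : Tendsto (fun t : ℝ => Real.log t ^ κ) atTop atTop :=
    (tendsto_rpow_atTop hκ).comp Real.tendsto_log_atTop
  filter_upwards [h1.eventually_ge_atTop (M₁ ^ κ * C₃ ^ (1 - κ) / ε'),
    Real.tendsto_log_atTop.eventually_ge_atTop 1] with t ht ht1
  have h0 : 0 < Real.log t := by linarith
  rw [div_le_iff₀ hε] at ht
  rw [Real.mul_rpow hC.le h0.le]
  calc M₁ ^ κ * (C₃ ^ (1 - κ) * Real.log t ^ (1 - κ))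
      = (M₁ ^ κ * C₃ ^ (1 - κ)) * Real.log t ^ (1 - κ) := by ring
    _ ≤ (Real.log t ^ κ * ε') * Real.log t ^ (1 - κ) :=
        mul_le_mul_of_nonneg_right ht (by positivity)
    _ = ε' * (Real.log t ^ κ * Real.log t ^ (1 - κ)) := by ring
    _ = ε' * Real.log t := by
        rw [← Real.rpow_add h0]
        norm_num

theorem helper13_TC_pow {M₁ M₃ θ κ : ℝ} (h1 : 0 < M₁) (h2 : M₁ ≤ M₃) (hθ : θ ≤ 1 - κ) :
    M₁ ^ (1 - θ) * M₃ ^ θ ≤ M₁ ^ κ * M₃ ^ (1 - κ) := by
  have h3 : 0 < M₃ := by linarith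
  have e1 : M₁ ^ (1 - θ) = M₁ ^ κ * M₁ ^ (1 - θ - κ) := by
    rw [← Real.rpow_add h1]; congr 1; ring
  have e2 : M₃ ^ (1 - κ) = M₃ ^ (1 - θ - κ) * M₃ ^ θ := by
    rw [← Real.rpow_add h3]; congr 1; ring
  rw [e1, e2, mul_assoc]
  refine mul_le_mul_of_nonneg_left ?_ (by positivity)
  refine mul_le_mul_of_nonneg_right ?_ (by positivity)
  exact Real.rpow_le_rpow h1.le h2 (by linarith)

theorem helper13_TC_main (hTHR : THR_stmt) (ε' δ : ℝ) (hε : 0 < ε') (hδ : 0 < δ)
    (hδ1 : δ ≤ 1 / 4) : ∃ T₀ : ℝ, 5 ≤ T₀ ∧ ∀ s : ℂ, 1 / 2 ≤ s.re → s.re ≤ 7 / 4 → T₀ ≤ s.im →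
    (∀ ρ : ℂ, riemannZeta ρ = 0 → s.re - δ ≤ ρ.re → |ρ.im - s.im| ≤ 3 → False) →
    ∃ f : ℂ → ℂ, DifferentiableOn ℂ f (ball s δ) ∧
      (∀ z ∈ ball s δ, riemannZeta z = Complex.exp (f z)) ∧
      ∀ z ∈ closedBall s (δ / 2), ‖f z‖ ≤ ε' * Real.log s.im := by
  obtain ⟨A, hA, hright⟩ := Pool.Agent.helper84.DM.zeta_right
  obtain ⟨G, hG, hgrow⟩ := zeta_growth
  set C₁ : ℝ := A + Real.pi with hC₁
  have hC₁0 : 0 < C₁ := by positivity
  set M₁ : ℝ := 2 * A + 3 * C₁ with hM₁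
  have hM₁0 : 0 < M₁ := by positivity
  set C₃ : ℝ := (48 + 24 * C₁) / δ + M₁ with hC₃
  have hC₃0 : 0 < C₃ := by positivity
  have hev := helper13_TC_ev (κ := δ / 26) (by positivity) hε hM₁0 hC₃0
  have hev2 : ∀ᶠ t : ℝ in atTop, G * (t + 9) ≤ t ^ 2 := by
    filter_upwards [eventually_ge_atTop (G + 9 + 9 * G)] with t ht
    nlinarith
  have hev3 : ∀ᶠ t : ℝ in atTop, 1 ≤ Real.log t := Real.tendsto_log_atTop.eventually_ge_atTop 1
  obtain ⟨T₁, hT₁⟩ := (hev.and (hev2.and hev3)).exists_forall_of_atTop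
  refine ⟨max 5 T₁, le_max_left _ _, fun s hs1 hs2 hs3 hz => ?_⟩
  have ht5 : 5 ≤ s.im := (le_max_left _ _).trans hs3
  obtain ⟨hE1, hE2, hE3⟩ := hT₁ s.im ((le_max_right _ _).trans hs3)
  set t : ℝ := s.im with ht
  set c : ℂ := ⟨3, t⟩ with hc
  have hcre : c.re = 3 := rfl
  have hcim : c.im = t := rfl
  set R : ℝ := 3 - s.re + δ with hR
  have hR1 : 5 / 4 < R := by rw [hR]; linarith
  have hR2 : R ≤ 11 / 4 := by rw [hR]; linarith
  have hball : ∀ z ∈ ball c R, s.re - δ < z.re ∧ z.re < 6 ∧ |z.im - t| ≤ 3 ∧ 2 ≤ z.im ∧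
      z.im ≤ t + 3 := by
    intro z hzb
    rw [mem_ball, dist_eq_norm] at hzb
    have h1 := (Complex.abs_re_le_norm (z - c)).trans_lt hzb
    have h2 := (Complex.abs_im_le_norm (z - c)).trans_lt hzb
    rw [Complex.sub_re, hcre, abs_lt] at h1
    rw [Complex.sub_im, hcim, abs_lt] at h2
    refine ⟨by linarith [h1.1], by linarith [h1.2], ?_, by linarith [h2.1], by linarith [h2.2]⟩
    rw [abs_le]
    constructor <;> linarith [h2.1, h2.2]
  have hne : ∀ z ∈ ball c R, riemannZeta z ≠ 0 := by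
    intro z hzb h0
    obtain ⟨h1, h2, h3, h4, h5⟩ := hball z hzb
    exact hz z h0 h1.le h3
  have hdiff : DifferentiableOn ℂ riemannZeta (ball c R) := by
    intro z hzb
    obtain ⟨h1, h2, h3, h4, h5⟩ := hball z hzb
    refine (differentiableAt_riemannZeta ?_).differentiableWithinAt
    intro h
    rw [h] at h4
    norm_num at h4
  have hcb : c ∈ ball c R := mem_ball_self (by linarith)
  obtain ⟨h, hhc, hh, hge⟩ := h13_exists_log (by linarith : 0 < R)
    (hdiff.analyticOnNhd isOpen_ball) hne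
  set f : ℂ → ℂ := fun z => h z + Complex.log (riemannZeta c) with hf
  have hfd : DifferentiableOn ℂ f (ball c R) := by
    intro z hzb
    exact ((hh z hzb).differentiableAt.add_const _).differentiableWithinAt
  have hfe : ∀ z ∈ ball c R, riemannZeta z = Complex.exp (f z) := by
    intro z hzb
    rw [hge z hzb, hf]
    simp only
    rw [Complex.exp_add, Complex.exp_log (hne c hcb), mul_comm]
  have hfc : ‖f c‖ ≤ C₁ := by
    have h1 : f c = Complex.log (riemannZeta c) := by rw [hf]; simp [hhc]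
    rw [h1]
    have h2 := hright c (by rw [hcre]; norm_num)
    exact helper13_TC_log h2.1 h2.2
  have hre : ∀ z ∈ ball c R, ∀ M : ℝ, ‖riemannZeta z‖ ≤ Real.exp M → (f z).re ≤ M := by
    intro z hzb M hM
    rw [hfe z hzb, Complex.norm_exp] at hM
    exact Real.exp_le_exp.1 hM
  have hlog0 : 0 < Real.log t := by linarith
  have hbig : ∀ z ∈ ball c R, (f z).re ≤ 2 * Real.log t := by
    intro z hzb
    refine hre z hzb _ ?_
    obtain ⟨h1, h2, h3, h4, h5⟩ := hball z hzb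
    have h6 := hgrow z (by linarith) (by rw [abs_of_nonneg (by linarith)]; linarith)
    have h7 : ‖z‖ ≤ t + 9 := by
      have h8 := Complex.norm_le_abs_re_add_abs_im z
      have h9 : |z.re| ≤ 6 := abs_le.2 ⟨by linarith, h2.le⟩
      have h10 : |z.im| ≤ t + 3 := abs_le.2 ⟨by linarith, h5⟩
      linarith
    have h8 : Real.exp (2 * Real.log t) = t ^ 2 := by
      rw [mul_comm, Real.exp_mul, Real.exp_log (by linarith)]
      norm_num
    rw [h8]
    calc ‖riemannZeta z‖ ≤ G * ‖z‖ := h6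
      _ ≤ G * (t + 9) := mul_le_mul_of_nonneg_left h7 hG.le
      _ ≤ t ^ 2 := hE2
  set r₃ : ℝ := R - δ / 4 with hr₃
  set r₂ : ℝ := R - δ / 2 with hr₂
  have hsub1 : ball c r₃ ⊆ ball c R := ball_subset_ball (by rw [hr₃]; linarith)
  have hM₃ : ∀ z ∈ ball c r₃, ‖f z‖ ≤ C₃ * Real.log t := by
    intro z hzb
    rw [mem_ball, dist_eq_norm] at hzb
    have h1 := helper13_TC_bc (f := f) (c := c) (z := z) (R := R) (r := r₃)
      (M := 2 * Real.log t) (C₁ := C₁) (by positivity) (by rw [hr₃]; linarith)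
      (by rw [hr₃]; linarith) hfd hbig hfc hzb.le
    have h2 : R - r₃ = δ / 4 := by rw [hr₃]; ring
    rw [h2] at h1
    have h3 : 2 * (2 * Real.log t) * r₃ / (δ / 4) ≤ 48 * Real.log t / δ := by
      rw [div_le_div_iff₀ (by positivity) hδ]
      have h4 : r₃ ≤ 3 := by rw [hr₃]; linarith
      have h5 : Real.log t * r₃ ≤ Real.log t * 3 := mul_le_mul_of_nonneg_left h4 hlog0.le
      nlinarith
    have h4 : C₁ * (R + r₃) / (δ / 4) ≤ 24 * C₁ * Real.log t / δ := by
      rw [div_le_div_iff₀ (by positivity) hδ]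
      have h5 : R + r₃ ≤ 6 := by rw [hr₃]; linarith
      have h6 : C₁ * (R + r₃) ≤ C₁ * 6 := mul_le_mul_of_nonneg_left h5 hC₁0.le
      have h7 : C₁ * 6 ≤ C₁ * 6 * Real.log t := le_mul_of_one_le_right (by positivity) hE3
      nlinarith
    have h5 : 0 ≤ M₁ * Real.log t := by positivity
    have h6 : C₃ * Real.log t = 48 * Real.log t / δ + 24 * C₁ * Real.log t / δ +
        M₁ * Real.log t := by
      rw [hC₃]; field_simp
    rw [h6]
    linarith
  have hM1 : ∀ z ∈ closedBall c (1 / 2), ‖f z‖ ≤ M₁ := by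
    intro z hzb
    rw [mem_closedBall, dist_eq_norm] at hzb
    have hsub2 : ball c 1 ⊆ ball c R := ball_subset_ball (by linarith)
    have h1 := helper13_TC_bc (f := f) (c := c) (z := z) (R := 1) (r := 1 / 2)
      (M := A) (C₁ := C₁) hA (by norm_num) (by norm_num) (hfd.mono hsub2) (fun w hw => by
        refine hre w (hsub2 hw) _ ?_
        refine (hright w ?_).2
        rw [mem_ball, dist_eq_norm] at hw
        have h2 := (Complex.abs_re_le_norm (w - c)).trans_lt hw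
        rw [Complex.sub_re, hcre, abs_lt] at h2
        linarith [h2.1]) hfc hzb
    refine h1.trans (le_of_eq ?_)
    rw [hM₁]; ring
  have hM13 : M₁ ≤ C₃ * Real.log t := by
    have h1 : M₁ ≤ C₃ := by rw [hC₃]; have : 0 ≤ (48 + 24 * C₁) / δ := by positivity
                            linarith
    exact h1.trans (le_mul_of_one_le_right hC₃0.le hE3)
  have h3c := hTHR f c (1 / 2) r₂ r₃ M₁ (C₃ * Real.log t) (by norm_num)
    (by rw [hr₂]; linarith) (by rw [hr₂, hr₃]; linarith) hM₁0 hM13 (hfd.mono hsub1) hM1 hM₃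
  have hkap : Real.log (r₂ / (1 / 2)) / Real.log (r₃ / (1 / 2)) ≤ 1 - δ / 26 :=
    helper13_TC_kappa hδ hδ1 (by rw [hr₂]; linarith) (by rw [hr₂, hr₃]; ring)
      (by rw [hr₃]; linarith)
  have hsc : ‖s - c‖ = 3 - s.re := by
    have h1 : s - c = ((s.re - 3 : ℝ) : ℂ) := by
      apply Complex.ext
      · simp [hcre]
      · simp [hcim, ht]
    rw [h1, Complex.norm_real, Real.norm_eq_abs, abs_of_neg (by linarith)]
    ring
  have hsb : ball s δ ⊆ ball c R := by
    intro z hzb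
    rw [mem_ball, dist_eq_norm] at hzb ⊢
    have h1 : z - c = (z - s) + (s - c) := by ring
    rw [h1]
    refine (norm_add_le _ _).trans_lt ?_
    rw [hsc, hR]; linarith
  refine ⟨f, hfd.mono hsb, fun z hzb => hfe z (hsb hzb), fun z hzb => ?_⟩
  have h1 : z ∈ closedBall c r₂ := by
    rw [mem_closedBall, dist_eq_norm] at hzb ⊢
    have h1 : z - c = (z - s) + (s - c) := by ring
    rw [h1]
    refine (norm_add_le _ _).trans ?_
    rw [hsc, hr₂, hR]; linarith
  exact (h3c z h1).trans ((helper13_TC_pow hM₁0 hM13 hkap).trans hE1)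

theorem TC (hTHR : THR_stmt) : TC_stmt := by
  intro ε δ hε hδ hδ1
  obtain ⟨T₁, hT₁5, hmain⟩ := helper13_TC_main hTHR ε δ hε hδ hδ1
  obtain ⟨A, hA, hright⟩ := Pool.Agent.helper84.DM.zeta_right
  have hev1 : ∀ᶠ t : ℝ in atTop, Real.exp A ≤ t ^ ε :=
    (tendsto_rpow_atTop hε).eventually_ge_atTop _
  have hev2 : ∀ᶠ t : ℝ in atTop, 4 * Real.exp A * Real.exp A ≤ t ^ ε :=
    (tendsto_rpow_atTop hε).eventually_ge_atTop _
  have hev3 : ∀ᶠ t : ℝ in atTop, ε * Real.log t / (δ / 2) ≤ t ^ ε := by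
    have h1 := (isLittleO_log_rpow_atTop hε).bound (by positivity : 0 < δ / (2 * ε))
    filter_upwards [h1, eventually_ge_atTop 1] with t ht ht1
    rw [Real.norm_of_nonneg (Real.log_nonneg ht1),
      Real.norm_of_nonneg (Real.rpow_nonneg (by linarith) _)] at ht
    rw [div_le_iff₀ (by positivity)]
    have h2 : ε * Real.log t ≤ ε * (δ / (2 * ε) * t ^ ε) := mul_le_mul_of_nonneg_left ht hε.le
    have h3 : ε * (δ / (2 * ε) * t ^ ε) = t ^ ε * (δ / 2) := by field_simp
    linarith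
  obtain ⟨T₂, hT₂⟩ := (hev1.and (hev2.and hev3)).exists_forall_of_atTop
  refine ⟨max T₁ T₂, hT₁5.trans (le_max_left _ _), fun s hs1 hs2 hz => ?_⟩
  have hsT1 : T₁ ≤ s.im := (le_max_left _ _).trans hs2
  obtain ⟨hE1, hE2, hE3⟩ := hT₂ s.im ((le_max_right _ _).trans hs2)
  have ht0 : 0 < s.im := by linarith
  rcases le_or_gt s.re (7 / 4) with hre | hre
  · obtain ⟨f, hfd, hfe, hfb⟩ := hmain s hs1 hre hsT1 hz
    have hsb : s ∈ ball s δ := mem_ball_self hδ
    have hfs := hfb s (mem_closedBall_self (by positivity))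
    have hre2 : |(f s).re| ≤ ε * Real.log s.im := (Complex.abs_re_le_norm _).trans hfs
    rw [abs_le] at hre2
    have hζ : ‖riemannZeta s‖ = Real.exp (f s).re := by
      rw [hfe s hsb, Complex.norm_exp]
    have hp1 : s.im ^ ε = Real.exp (ε * Real.log s.im) := by
      rw [Real.rpow_def_of_pos ht0, mul_comm]
    have hp2 : s.im ^ (-ε) = Real.exp (-(ε * Real.log s.im)) := by
      rw [Real.rpow_def_of_pos ht0]
      congr 1; ring
    refine ⟨?_, ?_, ?_⟩
    · rw [hζ, hp2]; exact Real.exp_le_exp.2 hre2.1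
    · rw [hζ, hp1]; exact Real.exp_le_exp.2 hre2.2
    · have hfat : DifferentiableAt ℂ f s := (hfd s hsb).differentiableAt (isOpen_ball.mem_nhds hsb)
      have hder : deriv riemannZeta s = deriv f s * riemannZeta s := by
        have h1 : riemannZeta =ᶠ[nhds s] fun z => Complex.exp (f z) := by
          filter_upwards [isOpen_ball.mem_nhds hsb] with z hzb using hfe z hzb
        rw [h1.deriv_eq, hfe s hsb]
        rw [(hfat.hasDerivAt.cexp).deriv, mul_comm]
      have hdb : ‖deriv f s‖ ≤ ε * Real.log s.im / (δ / 2) := by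
        refine Complex.norm_deriv_le_of_forall_mem_sphere_norm_le (by positivity) ?_
          (fun z hzb => hfb z (sphere_subset_closedBall hzb))
        refine DifferentiableOn.diffContOnCl ?_
        refine hfd.mono ?_
        rw [closure_ball s (by positivity)]
        exact closedBall_subset_ball (by linarith)
      rw [hder, norm_mul]
      exact mul_le_mul_of_nonneg_right (hdb.trans hE3) (norm_nonneg _)
  · obtain ⟨h1, h2⟩ := hright s (by linarith)
    have hp2 : s.im ^ (-ε) ≤ Real.exp (-A) := by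
      rw [Real.rpow_neg ht0.le, Real.exp_neg]
      exact inv_anti₀ (Real.exp_pos _) hE1
    refine ⟨hp2.trans h1, h2.trans hE1, ?_⟩
    have hdb : ‖deriv riemannZeta s‖ ≤ Real.exp A / (1 / 4) := by
      refine Complex.norm_deriv_le_of_forall_mem_sphere_norm_le (by norm_num) ?_ ?_
      · refine DifferentiableOn.diffContOnCl ?_
        rw [closure_ball s (by norm_num)]
        intro z hzb
        rw [mem_closedBall, dist_eq_norm] at hzb
        have h3 := (Complex.abs_re_le_norm (z - s)).trans hzb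
        rw [Complex.sub_re, abs_le] at h3
        refine (differentiableAt_riemannZeta ?_).differentiableWithinAt
        intro h
        rw [h] at h3
        norm_num at h3
        linarith [h3.1]
      · intro z hzb
        rw [mem_sphere, dist_eq_norm] at hzb
        have h3 := (Complex.abs_re_le_norm (z - s)).trans hzb.le
        rw [Complex.sub_re, abs_le] at h3
        exact (hright z (by linarith [h3.1])).2
    have h4 : 1 ≤ Real.exp A * ‖riemannZeta s‖ := by
      have h5 : Real.exp A * Real.exp (-A) = 1 := by rw [← Real.exp_add]; simp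
      rw [← h5]
      exact mul_le_mul_of_nonneg_left h1 (Real.exp_pos _).le
    calc ‖deriv riemannZeta s‖ ≤ Real.exp A / (1 / 4) * 1 := by rw [mul_one]; exact hdb
      _ ≤ Real.exp A / (1 / 4) * (Real.exp A * ‖riemannZeta s‖) :=
          mul_le_mul_of_nonneg_left h4 (by positivity)
      _ = 4 * Real.exp A * Real.exp A * ‖riemannZeta s‖ := by ring
      _ ≤ s.im ^ ε * ‖riemannZeta s‖ := mul_le_mul_of_nonneg_right hE2 (norm_nonneg _)

end Pool.Agent.EQ
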